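import Pool.Agent.MP_e37573_al.Mg.Tower

/-!
The set of growth rates of closed hyperbolic 3-manifold groups is well ordered of type `ω ^ ω`.
-/

namespace Pool.Agent.Results.MP_e37573_al.OrderType

open Pool.Agent.MP_e37573_al

theorem result :
    Nonempty (rates ≃o Set.Iio (Ordinal.omega0 ^ Ordinal.omega0 : Ordinal.{0})) :=
  orderIso_of_der rates_isWF rates_lower rates_upper

end Pool.Agent.Results.MP_e37573_al.OrderType
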